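import Pool.Agent.Work.MP_69bc90_co.Energy
import Pool.Agent.Work.MP_69bc90_co.Assembly

/-!
# The theta body of the localized Paley graph

For a prime `p ≡ 1 mod 4`, unit vectors `v x` (`x` a nonzero square modulo `p`) of a real inner
product space, orthogonal whenever `x - y` is not a square, and a unit vector `c`:
`∑ ⟪c, v x⟫ ^ 4 ≤ √((p - 1) / 2)`.
-/

set_option autoImplicit false

namespace Pool.Agent.Results.MP_69bc90_co.ThetaBody

open scoped Classical in
theorem result (p : ℕ) [Fact p.Prime] (hp : p % 4 = 1) (E : Type*) [NormedAddCommGroup E]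
    [InnerProductSpace ℝ E] (c : E) (v : ZMod p → E) (hc : ‖c‖ = 1)
    (hv : ∀ x, x ≠ 0 → IsSquare x → ‖v x‖ = 1)
    (hperp : ∀ x y, x ≠ 0 → IsSquare x → y ≠ 0 → IsSquare y → ¬ IsSquare (x - y) →
      inner ℝ (v x) (v y) = 0) :
    ∑ x : ZMod p with x ≠ 0 ∧ IsSquare x, (inner ℝ c (v x)) ^ 4 ≤ √(((p : ℝ) - 1) / 2) := by
  have hG : ∀ x : ZMod p, x ∈ (Finset.univ.filter fun x : ZMod p => x ≠ 0 ∧ IsSquare x) ↔
      x ≠ 0 ∧ IsSquare x := fun x => by
    rw [Finset.mem_filter]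
    exact ⟨fun h => h.2, fun h => ⟨Finset.mem_univ _, h⟩⟩
  refine Pool.Agent.PaleyLoc.main_of_energy hp c hc v hv hperp _ hG ?_
  refine Pool.Agent.PaleyLoc.energy hp c hc _ (fun x hx => (hG x).1 hx) v
    (fun x hx => hv x ((hG x).1 hx).1 ((hG x).1 hx).2) fun x hx y hy _ hns => ?_
  exact hperp x y ((hG x).1 hx).1 ((hG x).1 hx).2 ((hG y).1 hy).1 ((hG y).1 hy).2 hns

end Pool.Agent.Results.MP_69bc90_co.ThetaBody
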